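import Pool.Agent.Lib.TG.Basic

/-!
# Block TAME: the abstract theorem

Finite level Abhyankar lemma by Frobenius.  `S` is a local ring dominated by `V`, `U = S[1/x]`,
`x j` are the boundary parameters, `Y` the set of the other parameters, `w i` are (scaled) discrete
valuations with `w i (x j) = N` if `jj i = j` and `0` otherwise.
-/

set_option autoImplicit false

open Finset

namespace Pool.Agent.TGh19

universe u

/-- A `ℤ`-valued valuation of a field, the value of `0` is not used. -/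
structure ZV (K : Type u) [Field K] where
  o : K → ℤ
  mul : ∀ a b : K, a ≠ 0 → b ≠ 0 → o (a * b) = o a + o b
  add : ∀ a b : K, a ≠ 0 → b ≠ 0 → a + b ≠ 0 → min (o a) (o b) ≤ o (a + b)

namespace ZV

variable {K : Type u} [Field K] (w : ZV K)

/-- `m ≤ w a`. -/
def ge (m : ℤ) (a : K) : Prop := a = 0 ∨ m ≤ w.o a

theorem one : w.o 1 = 0 := by
  have h := w.mul 1 1 one_ne_zero one_ne_zero
  rw [mul_one] at h
  omega

theorem neg_one : w.o (-1) = 0 := by
  have h := w.mul (-1) (-1) (by simp) (by simp)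
  rw [show (-1 : K) * (-1) = 1 by ring, w.one] at h
  omega

theorem neg {a : K} (ha : a ≠ 0) : w.o (-a) = w.o a := by
  have h := w.mul (-1) a (by simp) ha
  rw [neg_one_mul, w.neg_one] at h
  omega

theorem inv {a : K} (ha : a ≠ 0) : w.o a⁻¹ = - w.o a := by
  have h := w.mul a a⁻¹ ha (inv_ne_zero ha)
  rw [mul_inv_cancel₀ ha, w.one] at h
  omega

theorem pow {a : K} (ha : a ≠ 0) (n : ℕ) : w.o (a ^ n) = n * w.o a := by
  induction n with
  | zero => simp [w.one]
  | succ n ih => rw [pow_succ, w.mul _ _ (pow_ne_zero _ ha) ha, ih]; push_cast; ring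

theorem zpow {a : K} (ha : a ≠ 0) (n : ℤ) : w.o (a ^ n) = n * w.o a := by
  obtain ⟨m, rfl | rfl⟩ := n.eq_nat_or_neg
  · rw [zpow_natCast, w.pow ha]
  · rw [zpow_neg, zpow_natCast, w.inv (pow_ne_zero _ ha), w.pow ha]; ring

theorem prod {ι : Type*} (s : Finset ι) (f : ι → K) (hf : ∀ i ∈ s, f i ≠ 0) :
    w.o (∏ i ∈ s, f i) = ∑ i ∈ s, w.o (f i) := by
  classical
  induction s using Finset.induction_on with
  | empty => simp [w.one]
  | insert i s hi ih =>
    rw [Finset.prod_insert hi, Finset.sum_insert hi, w.mul _ _ (hf i (by simp))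
      (Finset.prod_ne_zero_iff.2 fun j hj => hf j (by simp [hj])), ih fun j hj => hf j (by simp [hj])]

variable {w} {m n : ℤ} {a b : K}

theorem ge.add (ha : w.ge m a) (hb : w.ge m b) : w.ge m (a + b) := by
  rcases ha with rfl | ha
  · rwa [zero_add]
  rcases hb with rfl | hb
  · rw [add_zero]; exact Or.inr ha
  by_cases h0 : a = 0
  · subst h0; rw [zero_add]; exact Or.inr hb
  by_cases h1 : b = 0
  · subst h1; rw [add_zero]; exact Or.inr ha
  by_cases h2 : a + b = 0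
  · exact Or.inl h2
  · exact Or.inr ((le_min ha hb).trans (w.add a b h0 h1 h2))

theorem ge.neg (ha : w.ge m a) : w.ge m (-a) := by
  rcases ha with rfl | ha
  · rw [neg_zero]; exact Or.inl rfl
  by_cases h0 : a = 0
  · subst h0; rw [neg_zero]; exact Or.inl rfl
  · exact Or.inr (by rwa [w.neg h0])

theorem ge.mul (ha : w.ge m a) (hb : w.ge n b) : w.ge (m + n) (a * b) := by
  rcases ha with rfl | ha
  · rw [zero_mul]; exact Or.inl rfl
  rcases hb with rfl | hb
  · rw [mul_zero]; exact Or.inl rfl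
  by_cases h0 : a = 0
  · subst h0; rw [zero_mul]; exact Or.inl rfl
  by_cases h1 : b = 0
  · subst h1; rw [mul_zero]; exact Or.inl rfl
  · exact Or.inr (by rw [w.mul _ _ h0 h1]; omega)

theorem ge.mono (ha : w.ge m a) (h : n ≤ m) : w.ge n a := ha.imp_right fun h1 => h.trans h1

theorem ge_zero : w.ge m (0 : K) := Or.inl rfl

theorem ge_iff (ha : a ≠ 0) : w.ge m a ↔ m ≤ w.o a := by simp [ge, ha]

theorem ge_one : w.ge 0 (1 : K) := Or.inr w.one.ge

end ZV

/-- `∏ x j ^ a j`. -/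
def mz {K : Type u} [Field K] {J : Type} [Fintype J] (x : J → K) (a : J → ℤ) : K := ∏ j, x j ^ a j

section mz

variable {K : Type u} [Field K] {J : Type} [Fintype J] {x : J → K}

theorem mz_ne (hx : ∀ j, x j ≠ 0) (a : J → ℤ) : mz x a ≠ 0 :=
  Finset.prod_ne_zero_iff.2 fun j _ => zpow_ne_zero _ (hx j)

theorem mz_add (hx : ∀ j, x j ≠ 0) (a b : J → ℤ) : mz x (a + b) = mz x a * mz x b := by
  rw [mz, mz, mz, ← Finset.prod_mul_distrib]
  exact Finset.prod_congr rfl fun j _ => by rw [Pi.add_apply, zpow_add₀ (hx j)]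

theorem mz_zero : mz x 0 = 1 := by simp [mz]

theorem mz_neg (a : J → ℤ) : mz x (-a) = (mz x a)⁻¹ := by simp [mz, zpow_neg, Finset.prod_inv_distrib]

theorem mz_nsmul (n : ℕ) (a : J → ℤ) : mz x (fun j => n * a j) = mz x a ^ n := by
  rw [mz, mz, ← Finset.prod_pow]
  exact Finset.prod_congr rfl fun j _ => by rw [← zpow_natCast, ← zpow_mul]; congr 1; ring

theorem mz_single [DecidableEq J] (j : J) (m : ℤ) : mz x (Pi.single j m) = x j ^ m := by
  rw [mz, Finset.prod_eq_single j]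
  · simp
  · intro i _ hi; simp [Pi.single_eq_of_ne hi]
  · simp

end mz

variable {k K : Type u} [Field k] [Field K] [Algebra k K]

section

variable {J ι : Type} [Fintype J]

/-- The divisorial submodule `{c ∈ U : D i ≤ w i c}`. -/
def T (S U : Subalgebra k K) (w : ι → ZV K) (hSU : ∀ a ∈ S, a ∈ U ∧ ∀ i, (w i).ge 0 a)
    (D : ι → ℤ) : Submodule S K where
  carrier := {c | c ∈ U ∧ ∀ i, (w i).ge (D i) c}
  add_mem' := fun ha hb => ⟨U.add_mem ha.1 hb.1, fun i => (ha.2 i).add (hb.2 i)⟩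
  zero_mem' := ⟨U.zero_mem, fun _ => Or.inl rfl⟩
  smul_mem' := fun s c hc => by
    refine ⟨?_, fun i => ?_⟩
    · rw [Subalgebra.smul_def, smul_eq_mul]
      exact U.mul_mem (hSU s s.2).1 hc.1
    · rw [Subalgebra.smul_def, smul_eq_mul]
      exact (((hSU s s.2).2 i).mul (hc.2 i)).mono (by omega)

/-- Tame data. -/
structure TAD (p : ℕ) (V : ValuationSubring K) (S U : Subalgebra k K) (x : J → K) (Y : Set K)
    (N : ℕ) (jj : ι → J) (w : ι → ZV K) : Prop where
  le : ∀ a ∈ S, a ∈ V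
  inv : ∀ a ∈ S, V.valuation a = 1 → a⁻¹ ∈ S
  toU : ∀ a ∈ S, a ∈ U ∧ ∀ i, (w i).ge 0 a
  ofU : ∀ a ∈ U, (∀ i, (w i).ge 0 a) → a ∈ S
  x0 : ∀ j, x j ≠ 0
  xV : ∀ j, V.valuation (x j) < 1
  xU : ∀ j, x j ∈ U
  xiU : ∀ j, (x j)⁻¹ ∈ U
  wx : ∀ i j, jj i = j → (w i).o (x j) = N
  wx' : ∀ i j, jj i ≠ j → (w i).o (x j) = 0
  surj : ∀ j, ∃ i, jj i = j
  yS : ∀ y ∈ Y, y ∈ S
  y0 : ∀ y ∈ Y, y ≠ 0
  yV : ∀ y ∈ Y, V.valuation y < 1
  wy : ∀ y ∈ Y, ∀ i, (w i).o y = 0
  N0 : 0 < N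
  pN : Nat.Coprime p N
  prim : ∃ l : ℕ, ∀ a ∈ S, V.valuation a < 1 →
    a ^ l ∈ Submodule.span S (Set.range x ∪ Y)
  dec : ∀ D : ι → ℤ, ∀ a ∈ T S U w toU D, a ∈ AddSubgroup.closure
    ({b | b ∈ T S U w toU D ∧ ∃ i : J → ℕ, (∀ j, i j < p) ∧ ∃ c ∈ U, b = mz x (fun j => i j) * c ^ p}
      ∪ {b | ∃ y ∈ Y, ∃ b' ∈ T S U w toU D, b = y * b'})
  noeth : IsNoetherianRing S

/-- Terms `x^i c^q`, `i < q`. -/
def TA (S U : Subalgebra k K) (w : ι → ZV K) (hSU : ∀ a ∈ S, a ∈ U ∧ ∀ i, (w i).ge 0 a)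
    (x : J → K) (q : ℕ) (D : ι → ℤ) : Set K :=
  {b | b ∈ T S U w hSU D ∧ ∃ i : J → ℕ, (∀ j, i j < q) ∧ ∃ c ∈ U, b = mz x (fun j => i j) * c ^ q}

/-- Multiples of the elements of `Y`. -/
def TB (S U : Subalgebra k K) (w : ι → ZV K) (hSU : ∀ a ∈ S, a ∈ U ∧ ∀ i, (w i).ge 0 a)
    (Y : Set K) (D : ι → ℤ) : Set K :=
  {b | ∃ y ∈ Y, ∃ b' ∈ T S U w hSU D, b = y * b'}

variable {p : ℕ} {V : ValuationSubring K} {S U : Subalgebra k K} {x : J → K} {Y : Set K}
    {N : ℕ} {jj : ι → J} {w : ι → ZV K}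

namespace TAD

variable (h : TAD p V S U x Y N jj w)

include h

theorem mz_mem (a : J → ℤ) : mz x a ∈ U := by
  refine Subalgebra.prod_mem _ fun j _ => ?_
  obtain ⟨m, hm | hm⟩ := (a j).eq_nat_or_neg
  · rw [hm, zpow_natCast]; exact Subalgebra.pow_mem _ (h.xU j) _
  · rw [hm, zpow_neg, zpow_natCast, ← inv_pow]; exact Subalgebra.pow_mem _ (h.xiU j) _

theorem wmz (i : ι) (a : J → ℤ) : (w i).o (mz x a) = N * a (jj i) := by
  classical
  rw [mz, ZV.prod _ _ _ fun j _ => zpow_ne_zero _ (h.x0 j), Finset.sum_eq_single (jj i)]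
  · rw [ZV.zpow _ (h.x0 _), h.wx i _ rfl]; ring
  · intro j _ hj
    rw [ZV.zpow _ (h.x0 _), h.wx' i j (Ne.symm hj), mul_zero]
  · intro hh; simp at hh

theorem T_zero (a : K) : a ∈ T S U w h.toU 0 ↔ a ∈ S :=
  ⟨fun ha => h.ofU a ha.1 ha.2, fun ha => h.toU a ha⟩

theorem T_mul {D D' : ι → ℤ} {a b : K} (ha : a ∈ T S U w h.toU D) (hb : b ∈ T S U w h.toU D') :
    a * b ∈ T S U w h.toU (D + D') :=
  ⟨U.mul_mem ha.1 hb.1, fun i => (ha.2 i).mul (hb.2 i)⟩

theorem T_mono {D D' : ι → ℤ} (hD : D ≤ D') : T S U w h.toU D' ≤ T S U w h.toU D :=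
  fun _ ha => ⟨ha.1, fun i => (ha.2 i).mono (hD i)⟩

theorem dec_one (D : ι → ℤ) (a : K) (ha : a ∈ T S U w h.toU D) :
    a ∈ AddSubgroup.closure (TA S U w h.toU x 1 D ∪ TB S U w h.toU Y D) :=
  AddSubgroup.subset_closure (Or.inl ⟨ha, 0, fun _ => Nat.one_pos, a, ha.1, by
    rw [pow_one]; simp [mz]⟩)

theorem dec_succ [CharP K p] [Fact p.Prime] {q : ℕ}
    (hq : ∀ D : ι → ℤ, ∀ a ∈ T S U w h.toU D,
      a ∈ AddSubgroup.closure (TA S U w h.toU x q D ∪ TB S U w h.toU Y D)) (D : ι → ℤ) (a : K)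
    (ha : a ∈ T S U w h.toU D) :
    a ∈ AddSubgroup.closure (TA S U w h.toU x (p * q) D ∪ TB S U w h.toU Y D) := by
  have hp : 0 < p := (Fact.out : p.Prime).pos
  refine (AddSubgroup.closure_le _).2 ?_ (h.dec D a ha)
  rintro b (⟨hb, i, hi, c, hc, rfl⟩ | hb)
  swap
  · exact AddSubgroup.subset_closure (Or.inr hb)
  by_cases hc0 : c = 0
  · subst hc0
    rw [zero_pow hp.ne', mul_zero]
    exact AddSubgroup.zero_mem _
  -- the additive map `z ↦ x^i z^p`
  have hadd : ∀ z ∈ AddSubgroup.closure (TA S U w h.toU x q (fun i => (w i).o c) ∪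
      TB S U w h.toU Y (fun i => (w i).o c)), mz x (fun j => i j) * z ^ p ∈
      AddSubgroup.closure (TA S U w h.toU x (p * q) D ∪ TB S U w h.toU Y D) := by
    intro z hz
    induction hz using AddSubgroup.closure_induction with
    | zero => rw [zero_pow hp.ne', mul_zero]; exact AddSubgroup.zero_mem _
    | add u v _ _ hu hv =>
      rw [add_pow_char, mul_add]
      exact AddSubgroup.add_mem _ hu hv
    | neg u _ hu =>
      have : (-u) ^ p = - u ^ p := by
        have h1 : (-u + u) ^ p = (-u) ^ p + u ^ p := add_pow_char _ _ _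
        rw [neg_add_cancel, zero_pow hp.ne'] at h1
        exact eq_neg_of_add_eq_zero_left h1.symm
      rw [this, mul_neg]
      exact AddSubgroup.neg_mem _ hu
    | mem z hz =>
      have hval : ∀ z, z ∈ T S U w h.toU (fun i => (w i).o c) →
          mz x (fun j => i j) * z ^ p ∈ T S U w h.toU D := by
        intro z hz
        refine ⟨U.mul_mem (h.mz_mem _) (U.pow_mem hz.1 _), fun l => ?_⟩
        by_cases hz0 : z = 0
        · subst hz0; rw [zero_pow hp.ne', mul_zero]; exact Or.inl rfl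
        rw [ZV.ge_iff (mul_ne_zero (mz_ne h.x0 _) (pow_ne_zero _ hz0)),
          ZV.mul _ _ _ (mz_ne h.x0 _) (pow_ne_zero _ hz0), ZV.pow _ hz0]
        have h1 := hb.2 l
        rw [ZV.ge_iff (mul_ne_zero (mz_ne h.x0 _) (pow_ne_zero _ hc0)),
          ZV.mul _ _ _ (mz_ne h.x0 _) (pow_ne_zero _ hc0), ZV.pow _ hc0] at h1
        have h2 := (ZV.ge_iff hz0).1 (hz.2 l)
        have h3 : (p : ℤ) * (w l).o c ≤ p * (w l).o z :=
          mul_le_mul_of_nonneg_left h2 (by positivity)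
        linarith
      rcases hz with ⟨hzT, i', hi', c', hc', rfl⟩ | ⟨y, hy, b', hb', rfl⟩
      · refine AddSubgroup.subset_closure (Or.inl ⟨hval _ hzT, fun j => i j + p * i' j, ?_, c', hc',
          ?_⟩)
        · intro j
          have h1 := hi j
          have h2 := hi' j
          calc i j + p * i' j < p + p * i' j := by omega
            _ = p * (i' j + 1) := by ring
            _ ≤ p * q := Nat.mul_le_mul_left _ h2
        · rw [mul_pow, ← mz_nsmul, ← mul_assoc, ← mz_add h.x0, ← pow_mul, mul_comm q p]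
          congr 2
      · refine AddSubgroup.subset_closure (Or.inr ⟨y, hy, y ^ (p - 1) *
          (mz x (fun j => i j) * b' ^ p), ?_, ?_⟩)
        · have h1 := h.T_mul (h.toU _ (S.pow_mem (h.yS y hy) (p - 1))) (hval _ hb')
          exact h.T_mono (by intro l; simp) h1
        · rw [mul_pow, ← mul_assoc, ← mul_assoc, ← mul_assoc, ← pow_succ',
            Nat.sub_add_cancel hp]
          ring
  refine hadd c (hq _ c ⟨hc, fun l => Or.inr le_rfl⟩)

theorem dec_pow [CharP K p] [Fact p.Prime] (f : ℕ) : ∀ (D : ι → ℤ) (a : K),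
    a ∈ T S U w h.toU D →
    a ∈ AddSubgroup.closure (TA S U w h.toU x (p ^ f) D ∪ TB S U w h.toU Y D) := by
  induction f with
  | zero => rw [pow_zero]; exact h.dec_one
  | succ f ih => rw [pow_succ']; exact h.dec_succ ih

end TAD

end

end Pool.Agent.TGh19
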