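import Pool.Agent.Lib.TG_h19.AT

/-!
# Block TAME: the abstract theorem, second part
-/

set_option autoImplicit false

open Finset

namespace Pool.Agent.TGh19

universe u

variable {k K : Type u} [Field k] [Field K] [Algebra k K] {J ι : Type} [Fintype J] [DecidableEq J]
  {p : ℕ} {V : ValuationSubring K} {S U : Subalgebra k K} {x : J → K} {Y : Set K}
  {N : ℕ} {jj : ι → J} {w : ι → ZV K}

theorem val_mul_lt (V : ValuationSubring K) {a b : K} (ha : V.valuation a ≤ 1)
    (hb : V.valuation b < 1) : V.valuation (a * b) < 1 := by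
  rw [map_mul]
  exact mul_lt_one_of_nonneg_of_lt_one_right ha zero_le hb

/-- `G g = {c ∈ U : g (jj i) ≤ w i c}`. -/
def G (h : TAD p V S U x Y N jj w) (g : J → ℤ) : Submodule S K := T S U w h.toU fun i => g (jj i)

/-- `U_g = (Y) G g + ∑ j, G (g + e j)`. -/
def Ug (h : TAD p V S U x Y N jj w) (g : J → ℤ) : Submodule S K :=
  Submodule.span S (TB S U w h.toU Y fun i => g (jj i)) ⊔ ⨆ j, G h (g + Pi.single j 1)

/-- The maximal ideal of `S`. -/
def mI (h : TAD p V S U x Y N jj w) : Ideal S where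
  carrier := {a | V.valuation (a : K) < 1}
  add_mem' := fun ha hb => (V.valuation.map_add _ _).trans_lt (max_lt ha hb)
  zero_mem' := by simp
  smul_mem' := fun c a ha => by
    change V.valuation ((c • a : S) : K) < 1
    rw [smul_eq_mul, Subalgebra.coe_mul]
    exact val_mul_lt V ((V.valuation_le_one_iff _).2 (h.le c c.2)) ha

variable (h : TAD p V S U x Y N jj w)

namespace TAD

theorem mem_G {g : J → ℤ} {a : K} : a ∈ G h g ↔ a ∈ U ∧ ∀ i, (w i).ge (g (jj i)) a := Iff.rfl

theorem G_zero {a : K} : a ∈ G h 0 ↔ a ∈ S := h.T_zero a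

theorem G_mono {g g' : J → ℤ} (hg : g ≤ g') : G h g' ≤ G h g := h.T_mono fun i => hg (jj i)

theorem G_mul {g g' : J → ℤ} {a b : K} (ha : a ∈ G h g) (hb : b ∈ G h g') : a * b ∈ G h (g + g') :=
  h.T_mul ha hb

theorem G_le_Ug (g : J → ℤ) (j : J) : G h (g + Pi.single j 1) ≤ Ug h g :=
  fun _ ha => Submodule.mem_sup_right (Submodule.mem_iSup_of_mem j ha)

theorem TB_le_Ug (g : J → ℤ) {y b : K} (hy : y ∈ Y) (hb : b ∈ G h g) : y * b ∈ Ug h g :=
  Submodule.mem_sup_left (Submodule.subset_span ⟨y, hy, b, hb, rfl⟩)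

include h in
theorem unit_val {a : K} (ha : a ∈ S) (h1 : V.valuation a = 1) (i : ι) : (w i).o a = 0 := by
  have h0 : a ≠ 0 := by rintro rfl; simp at h1
  have h2 := (ZV.ge_iff h0).1 ((h.toU a ha).2 i)
  have h3 := (ZV.ge_iff (inv_ne_zero h0)).1 ((h.toU _ (h.inv a ha h1)).2 i)
  rw [ZV.inv _ h0] at h3
  omega

theorem Ug_le {g : J → ℤ} {M : Submodule S K} (hy : ∀ y ∈ Y, ∀ b ∈ G h g, y * b ∈ M)
    (hj : ∀ j, G h (g + Pi.single j 1) ≤ M) : Ug h g ≤ M := by
  refine sup_le (Submodule.span_le.2 ?_) (iSup_le hj)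
  rintro z ⟨y, hy1, b, hb, rfl⟩
  exact hy y hy1 b hb

/-- The maximal ideal as a submodule of `K`. -/
def mM (h : TAD p V S U x Y N jj w) : Submodule S K where
  carrier := {a | a ∈ S ∧ V.valuation a < 1}
  add_mem' := fun ha hb => ⟨S.add_mem ha.1 hb.1, (V.valuation.map_add _ _).trans_lt
    (max_lt ha.2 hb.2)⟩
  zero_mem' := ⟨S.zero_mem, by simp⟩
  smul_mem' := fun c a ha => by
    rw [Subalgebra.smul_def, smul_eq_mul]
    exact ⟨S.mul_mem c.2 ha.1, val_mul_lt V ((V.valuation_le_one_iff _).2 (h.le c c.2)) ha.2⟩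

theorem Ug_zero {a : K} (ha : a ∈ Ug h 0) : a ∈ S ∧ V.valuation a < 1 := by
  refine (Ug_le h (M := h.mM) ?_ ?_) ha
  · intro y hy b hb
    have hb' := (h.G_zero).1 hb
    refine ⟨S.mul_mem (h.yS y hy) hb', ?_⟩
    rw [mul_comm]
    exact val_mul_lt V ((V.valuation_le_one_iff _).2 (h.le b hb')) (h.yV y hy)
  · intro j b hb
    have hbS : b ∈ S := (h.G_zero).1 (G_mono h (by
      rw [zero_add]; exact Pi.single_nonneg.2 zero_le_one) hb)
    refine ⟨hbS, ?_⟩
    by_contra hlt
    have h1 : V.valuation b = 1 :=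
      le_antisymm ((V.valuation_le_one_iff _).2 (h.le b hbS)) (not_lt.1 hlt)
    obtain ⟨i, hi⟩ := h.surj j
    have h2 := h.unit_val hbS h1 i
    have hb0 : b ≠ 0 := by rintro rfl; simp at h1
    have h3 := (ZV.ge_iff hb0).1 (hb.2 i)
    simp only [h2, hi, zero_add, Pi.single_eq_same] at h3
    omega

theorem x_mem (j : J) : x j ∈ G h (0 + Pi.single j 1) := by
  refine ⟨h.xU j, fun i => Or.inr ?_⟩
  by_cases hi : jj i = j
  · simp only [h.wx i j hi, hi, zero_add, Pi.single_eq_same]
    have := h.N0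
    omega
  · simp only [h.wx' i j hi, zero_add, Pi.single_eq_of_ne hi, le_refl]

/-- Claim B: `m_S = U_0`. -/
theorem mem_Ug_zero [CharP K p] [hp : Fact p.Prime] {a : K} (ha : a ∈ S) (hV : V.valuation a < 1) :
    a ∈ Ug h 0 := by
  obtain ⟨l, hl⟩ := h.prim
  -- choose `q = p ^ l ≥ l`
  have hq : l ≤ p ^ l := (Nat.lt_pow_self hp.out.one_lt).le
  have hspan : ∀ c ∈ S, V.valuation c < 1 → c ^ (p ^ l) ∈ Ug h 0 := by
    intro c hc hcV
    have h1 := hl c hc hcV
    have h2 : Submodule.span S (Set.range x ∪ Y) ≤ Ug h 0 := by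
      refine Submodule.span_le.2 ?_
      rintro z (⟨j, rfl⟩ | hz)
      · exact G_le_Ug h 0 j (h.x_mem j)
      · have := TB_le_Ug h 0 hz (b := 1) ((h.G_zero).2 S.one_mem)
        rwa [mul_one] at this
    have h3 := (Ug h 0).smul_mem (⟨c ^ (p ^ l - l), S.pow_mem hc _⟩ : S) (h2 h1)
    rw [Subalgebra.smul_def, smul_eq_mul, ← pow_add, Nat.sub_add_cancel hq] at h3
    exact h3
  have hdec := h.dec_pow l 0 a ((h.T_zero a).2 ha)
  have key : ∀ b ∈ AddSubgroup.closure (TA S U w h.toU x (p ^ l) 0 ∪ TB S U w h.toU Y 0),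
      ∃ c ∈ S, b - c ^ (p ^ l) ∈ Ug h 0 := by
    intro b hb
    induction hb using AddSubgroup.closure_induction with
    | zero => exact ⟨0, S.zero_mem, by
        rw [zero_pow (pow_pos hp.out.pos _).ne', sub_zero]; exact Submodule.zero_mem _⟩
    | add u v _ _ hu hv =>
      obtain ⟨c, hc, hcu⟩ := hu
      obtain ⟨d, hd, hdv⟩ := hv
      refine ⟨c + d, S.add_mem hc hd, ?_⟩
      rw [add_pow_char_pow]
      have := (Ug h 0).add_mem hcu hdv
      convert this using 1
      ring
    | neg u _ hu =>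
      obtain ⟨c, hc, hcu⟩ := hu
      refine ⟨-c, S.neg_mem hc, ?_⟩
      have h1 : (-c) ^ (p ^ l) = - c ^ (p ^ l) := by
        have h1 : (-c + c) ^ (p ^ l) = (-c) ^ (p ^ l) + c ^ (p ^ l) := add_pow_char_pow ..
        rw [neg_add_cancel, zero_pow (pow_pos hp.out.pos _).ne'] at h1
        exact eq_neg_of_add_eq_zero_left h1.symm
      rw [h1]
      have := (Ug h 0).neg_mem hcu
      convert this using 1
      ring
    | mem z hz =>
      rcases hz with ⟨hzT, i, hi, c, hc, rfl⟩ | ⟨y, hy, b', hb', rfl⟩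
      · by_cases hc0 : c = 0
        · subst hc0
          refine ⟨0, S.zero_mem, ?_⟩
          rw [zero_pow (pow_pos hp.out.pos _).ne', mul_zero, sub_zero]; exact Submodule.zero_mem _
        by_cases hi0 : ∀ j, i j = 0
        · refine ⟨c, ?_, ?_⟩
          · refine h.ofU c hc fun r => ?_
            have h1 := hzT.2 r
            rw [ZV.ge_iff (mul_ne_zero (mz_ne h.x0 _) (pow_ne_zero _ hc0)),
              ZV.mul _ _ _ (mz_ne h.x0 _) (pow_ne_zero _ hc0), ZV.pow _ hc0, h.wmz, hi0] at h1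
            refine Or.inr ?_
            simp only [Nat.cast_zero, mul_zero, zero_add, Pi.zero_apply] at h1
            exact nonneg_of_mul_nonneg_right h1 (by exact_mod_cast pow_pos hp.out.pos l)
          · have : mz x (fun j => ((i j : ℕ) : ℤ)) = 1 := by
              simp [mz, hi0]
            rw [this, one_mul, sub_self]
            exact Submodule.zero_mem _
        · push Not at hi0
          obtain ⟨j, hj⟩ := hi0
          refine ⟨0, S.zero_mem, ?_⟩
          rw [zero_pow (pow_pos hp.out.pos _).ne', sub_zero]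
          refine G_le_Ug h 0 j ⟨hzT.1, fun r => ?_⟩
          by_cases hr : jj r = j
          · simp only [zero_add, hr, Pi.single_eq_same]
            have h1 := hzT.2 r
            rw [ZV.ge_iff (mul_ne_zero (mz_ne h.x0 _) (pow_ne_zero _ hc0)),
              ZV.mul _ _ _ (mz_ne h.x0 _) (pow_ne_zero _ hc0), ZV.pow _ hc0, h.wmz, hr] at h1
            rw [ZV.ge_iff (mul_ne_zero (mz_ne h.x0 _) (pow_ne_zero _ hc0)),
              ZV.mul _ _ _ (mz_ne h.x0 _) (pow_ne_zero _ hc0), ZV.pow _ hc0, h.wmz, hr]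
            simp only [Pi.zero_apply] at h1
            have h2 : (N : ℤ) * i j + (p ^ l : ℕ) * (w r).o c ≠ 0 := by
              intro h0
              have h3 : ((p ^ l : ℕ) : ℤ) ∣ N * i j :=
                ⟨-(w r).o c, by linarith⟩
              have h4 : p ^ l ∣ N * i j := by exact_mod_cast h3
              have h5 : p ^ l ∣ i j := (Nat.Coprime.pow_left l h.pN).dvd_of_dvd_mul_left h4
              exact hj (Nat.eq_zero_of_dvd_of_lt h5 (hi j))
            omega
          · simp only [zero_add, Pi.single_eq_of_ne hr]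
            exact hzT.2 r
      · refine ⟨0, S.zero_mem, ?_⟩
        rw [zero_pow (pow_pos hp.out.pos _).ne', sub_zero]
        exact TB_le_Ug h 0 hy hb'
  obtain ⟨c, hc, hca⟩ := key a hdec
  have h1 := (h.Ug_zero hca).2
  have h2 : V.valuation (c ^ (p ^ l)) < 1 := by
    have : c ^ (p ^ l) = a - (a - c ^ (p ^ l)) := by ring
    rw [this]
    exact (V.valuation.map_sub _ _).trans_lt (max_lt hV h1)
  have h3 : V.valuation c < 1 := by
    rw [map_pow] at h2
    by_contra h4
    exact absurd h2 (not_lt.2 (one_le_pow₀ (not_lt.1 h4)))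
  have h4 := (Ug h 0).add_mem hca (hspan c hc h3)
  rwa [sub_add_cancel] at h4

/-- `{a : a c ∈ M}`. -/
def colon (M : Submodule S K) (c : K) : Submodule S K where
  carrier := {a | a * c ∈ M}
  add_mem' := fun {a b} ha hb => by
    change (a + b) * c ∈ M
    rw [add_mul]; exact M.add_mem ha hb
  zero_mem' := by
    change 0 * c ∈ M
    rw [zero_mul]; exact M.zero_mem
  smul_mem' := fun s a ha => by
    change (s • a) * c ∈ M
    rw [smul_mul_assoc]
    exact M.smul_mem s ha

/-- `m_S G g ⊆ U_g`. -/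
theorem m_mul [CharP K p] [hp : Fact p.Prime] {g : J → ℤ} {a c : K} (ha : a ∈ S)
    (hV : V.valuation a < 1) (hc : c ∈ G h g) : a * c ∈ Ug h g := by
  refine (Ug_le h (M := colon (Ug h g) c) ?_ ?_) (h.mem_Ug_zero ha hV)
  · intro y hy b hb
    have h1 : b * c ∈ G h g := by
      have := G_mul h hb hc
      rwa [zero_add] at this
    have h2 := TB_le_Ug h g hy h1
    change y * b * c ∈ Ug h g
    rwa [mul_assoc]
  · intro j b hb
    have h1 := G_mul h hb hc
    rw [zero_add, add_comm] at h1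
    exact G_le_Ug h g j h1

end TAD

end Pool.Agent.TGh19
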