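import Pool.Agent.Lib.TG_h19.AT2

/-!
# Block TAME: the abstract theorem, third part
-/

set_option autoImplicit false

open Finset

namespace Pool.Agent.TGh19

universe u

variable {k K : Type u} [Field k] [Field K] [Algebra k K] {J ι : Type} [Fintype J] [DecidableEq J]
  {p : ℕ} {V : ValuationSubring K} {S U : Subalgebra k K} {x : J → K} {Y : Set K}
  {N : ℕ} {jj : ι → J} {w : ι → ZV K}

namespace TAD

variable (h : TAD p V S U x Y N jj w)

include h in
theorem exists_exp [hp : Fact p.Prime] : ∃ f : ℕ, ∃ b : ℕ, p ^ f = N * b + 1 ∧ 2 ≤ p ^ f := by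
  have h1 := Nat.ModEq.pow_totient h.pN
  have hφ : 0 < Nat.totient N := Nat.totient_pos.2 h.N0
  have h2 : 1 ≤ p ^ Nat.totient N := Nat.one_le_pow _ _ hp.out.pos
  have h3 : N ∣ p ^ Nat.totient N - 1 := (Nat.modEq_iff_dvd' h2).1 h1.symm
  obtain ⟨b, hb⟩ := h3
  refine ⟨Nat.totient N, b, by omega, ?_⟩
  calc 2 ≤ p := hp.out.two_le
    _ = p ^ 1 := (pow_one p).symm
    _ ≤ p ^ Nat.totient N := Nat.pow_le_pow_right hp.out.pos hφ

/-- The dichotomy: `G g = U_g`, or `G g` is principal generated by a monomial. -/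
theorem dichotomy [CharP K p] [hp : Fact p.Prime] (g : J → ℤ) : G h g ≤ Ug h g ∨
    ∃ χ ∈ G h g, χ ≠ 0 ∧ χ⁻¹ ∈ U ∧ ∀ i, (w i).o χ = g (jj i) := by
  by_contra hcon
  push Not at hcon
  obtain ⟨hn, hc⟩ := hcon
  refine hn fun a ha => ?_
  obtain ⟨f, b, hfb, hf2⟩ := h.exists_exp
  set q := p ^ f with hq
  have hq0 : 0 < q := by omega
  have hqz : (q : ℤ) = N * b + 1 := by exact_mod_cast hfb
  have hN0 : (0 : ℤ) < N := by exact_mod_cast h.N0
  have hdec := h.dec_pow f _ a ha
  rw [← hq] at hdec
  have hle : ∀ z ∈ TA S U w h.toU x q (fun i => g (jj i)) ∪ TB S U w h.toU Y (fun i => g (jj i)),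
      z ∈ (Ug h g).toAddSubgroup := by
    rintro z (⟨hzT, i, hi, c, hcU, rfl⟩ | ⟨y, hy, b', hb', rfl⟩)
    swap
    · exact TB_le_Ug h g hy hb'
    by_cases hc0 : c = 0
    · subst hc0
      rw [zero_pow hq0.ne', mul_zero]
      exact (Ug h g).zero_mem
    have hne : mz x (fun j => (i j : ℤ)) * c ^ q ≠ 0 :=
      mul_ne_zero (mz_ne h.x0 _) (pow_ne_zero _ hc0)
    have hval : ∀ r, (w r).o (mz x (fun j => (i j : ℤ)) * c ^ q) = N * i (jj r) + q * (w r).o c := by
      intro r
      rw [ZV.mul _ _ _ (mz_ne h.x0 _) (pow_ne_zero _ hc0), ZV.pow _ hc0, h.wmz]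
    have hge : ∀ r, g (jj r) ≤ N * i (jj r) + q * (w r).o c := by
      intro r
      rw [← hval r]
      exact (ZV.ge_iff hne).1 (hzT.2 r)
    by_cases hdiv : ∀ j, (q : ℤ) ∣ g j - N * i j
    swap
    · -- strictly larger value along one `x j`
      push Not at hdiv
      obtain ⟨j, hj⟩ := hdiv
      refine G_le_Ug h g j ⟨hzT.1, fun r => ?_⟩
      rw [ZV.ge_iff hne, hval]
      by_cases hr : jj r = j
      · have h1 := hge r
        have h2 : g (jj r) ≠ N * i (jj r) + q * (w r).o c := by
          intro h3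
          refine hj ⟨(w r).o c, ?_⟩
          rw [← hr]
          linarith
        simp only [Pi.add_apply, hr, Pi.single_eq_same] at h1 h2 ⊢
        omega
      · simp only [Pi.add_apply, Pi.single_eq_of_ne hr, add_zero]
        exact hge r
    · choose hh hhj using hdiv
      -- `a j = (g j - hh j) / N`
      have ha' : ∀ j, ∃ a : ℤ, g j - hh j = N * a := by
        intro j
        refine ⟨i j + b * hh j, ?_⟩
        have := hhj j
        rw [hqz] at this
        linear_combination this
      choose a' ha'' using ha'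
      set c' : K := mz x a' * c with hc'
      have hc'0 : c' ≠ 0 := mul_ne_zero (mz_ne h.x0 _) hc0
      have hcval : ∀ r, hh (jj r) ≤ (w r).o c := by
        intro r
        have h1 := hge r
        have h2 := hhj (jj r)
        have h3 : (q : ℤ) * hh (jj r) ≤ q * (w r).o c := by linarith
        exact le_of_mul_le_mul_left h3 (by exact_mod_cast hq0)
      have hc'val : ∀ r, (w r).o c' = N * a' (jj r) + (w r).o c := by
        intro r
        rw [hc', ZV.mul _ _ _ (mz_ne h.x0 _) hc0, h.wmz]
      have hc'U : c' ∈ U := U.mul_mem (h.mz_mem _) hcU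
      have hc'G : c' ∈ G h g := by
        refine ⟨hc'U, fun r => Or.inr ?_⟩
        rw [hc'val]
        have h1 := hcval r
        have h2 := ha'' (jj r)
        show g (jj r) ≤ _
        linarith
      -- `η = x^(i - q a') c'^(q-1)`
      set e : J → ℤ := fun j => i j - q * a' j with he
      set η : K := mz x e * c' ^ (q - 1) with hη
      have hηU : η ∈ U := U.mul_mem (h.mz_mem _) (U.pow_mem hc'U _)
      have hη0 : η ≠ 0 := mul_ne_zero (mz_ne h.x0 _) (pow_ne_zero _ hc'0)
      have hzη : mz x (fun j => (i j : ℤ)) * c ^ q = η * c' := by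
        rw [hη, mul_assoc, ← pow_succ, Nat.sub_add_cancel hq0, hc', mul_pow, ← mz_nsmul, ← mul_assoc,
          ← mz_add h.x0]
        congr 2
        funext j
        simp [he]
      have hηval : ∀ r, (w r).o η = (q - 1 : ℤ) * ((w r).o c' - g (jj r)) := by
        intro r
        have h1 := hval r
        rw [hzη, ZV.mul _ _ _ hη0 hc'0] at h1
        have h2 := hc'val r
        have h3 := ha'' (jj r)
        have h4 := hhj (jj r)
        have h5 : (w r).o c = (w r).o c' - N * a' (jj r) := by linarith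
        rw [h5] at h1
        have h6 : (w r).o η = N * i (jj r) + q * ((w r).o c' - N * a' (jj r)) - (w r).o c' := by
          linarith
        rw [h6, ← h3]
        linear_combination -h4
      have hηS : η ∈ S := by
        refine h.ofU η hηU fun r => Or.inr ?_
        rw [hηval]
        refine mul_nonneg ?_ ?_
        · have : (2 : ℤ) ≤ q := by exact_mod_cast hf2
          linarith
        · have := (ZV.ge_iff hc'0).1 (hc'G.2 r)
          linarith
      rw [hzη]
      by_cases hηV : V.valuation η < 1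
      · exact h.m_mul hηS hηV hc'G
      · exfalso
        have hη1 : V.valuation η = 1 :=
          le_antisymm ((V.valuation_le_one_iff _).2 (h.le η hηS)) (not_lt.1 hηV)
        have hinv := h.inv η hηS hη1
        have hinvU := (h.toU _ hinv).1
        have hw : ∀ r, (w r).o c' = g (jj r) := by
          intro r
          have h1 := h.unit_val hηS hη1 r
          rw [hηval] at h1
          rcases mul_eq_zero.1 h1 with h2 | h2
          · have : (2 : ℤ) ≤ q := by exact_mod_cast hf2
            omega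
          · linarith
        have hc'inv : c'⁻¹ ∈ U := by
          have h1 : c'⁻¹ = mz x e * c' ^ (q - 2) * η⁻¹ := by
            rw [eq_mul_inv_iff_mul_eq₀ hη0, inv_mul_eq_iff_eq_mul₀ hc'0, hη]
            have h2 : c' ^ (q - 1) = c' * c' ^ (q - 2) := by
              rw [← pow_succ']
              congr 1
              omega
            rw [h2]
            ring
          rw [h1]
          exact U.mul_mem (U.mul_mem (h.mz_mem _) (U.pow_mem hc'U _)) hinvU
        obtain ⟨r, hr⟩ := hc c' hc'G hc'0 hc'inv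
        exact hr (hw r)
  exact (AddSubgroup.closure_le _).2 hle hdec

/-- The span of the monomials in `G g`. -/
def G' (h : TAD p V S U x Y N jj w) (g : J → ℤ) : Submodule S K :=
  Submodule.span S {χ | χ ∈ G h g ∧ χ ≠ 0 ∧ χ⁻¹ ∈ U}

theorem smul_mM {M : Submodule S K} {a c : K} (ha : a ∈ S) (hV : V.valuation a < 1) (hc : c ∈ M) :
    a * c ∈ mI h • M :=
  Submodule.smul_mem_smul (r := (⟨a, ha⟩ : S)) (show (⟨a, ha⟩ : S) ∈ mI h from hV) hc

theorem G_fg (g : J → ℤ) : (G h g).FG := by
  have := h.noeth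
  refine Submodule.FG.of_le (Submodule.fg_span_singleton (mz x fun j => -|g j|)) fun c hc => ?_
  rw [Submodule.mem_span_singleton]
  by_cases hc0 : c = 0
  · exact ⟨0, by rw [zero_smul, hc0]⟩
  refine ⟨⟨mz x (fun j => |g j|) * c, h.ofU _ (U.mul_mem (h.mz_mem _) hc.1) fun i => Or.inr ?_⟩, ?_⟩
  · rw [ZV.mul _ _ _ (mz_ne h.x0 _) hc0, h.wmz]
    have h1 := (ZV.ge_iff hc0).1 (hc.2 i)
    have h2 : (1 : ℤ) ≤ N := by exact_mod_cast h.N0
    have h3 : |g (jj i)| ≤ N * |g (jj i)| := le_mul_of_one_le_left (abs_nonneg _) h2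
    have h4 := neg_abs_le (g (jj i))
    dsimp only at h1
    linarith
  · rw [Subalgebra.smul_def, smul_eq_mul]
    change mz x (fun j => |g j|) * c * mz x (fun j => -|g j|) = c
    have h1 : mz x (fun j => |g j|) * mz x (fun j => -|g j|) = 1 := by
      rw [← mz_add h.x0, ← mz_zero (x := x)]
      congr 1
      funext j
      simp
    calc mz x (fun j => |g j|) * c * mz x (fun j => -|g j|)
        = (mz x (fun j => |g j|) * mz x (fun j => -|g j|)) * c := by ring
      _ = c := by rw [h1, one_mul]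

theorem mI_le : mI h ≤ Ideal.jacobson ⊥ := by
  intro a ha
  rw [Ideal.mem_jacobson_bot]
  intro b
  have h1 : V.valuation ((a * b : S) : K) < 1 := by
    rw [mul_comm, Subalgebra.coe_mul]
    exact val_mul_lt V ((V.valuation_le_one_iff _).2 (h.le b b.2)) ha
  have h2 : V.valuation ((a * b + 1 : S) : K) = 1 := by
    rw [Subalgebra.coe_add, Subalgebra.coe_one, add_comm, V.valuation.map_add_eq_of_lt_left]
    · exact map_one _
    · rwa [map_one]
  have h3 := h.inv _ (a * b + 1 : S).2 h2
  have h4 : ((a * b + 1 : S) : K) ≠ 0 := by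
    intro h0
    rw [h0] at h2
    simp at h2
  exact IsUnit.of_mul_eq_one ⟨_, h3⟩ (Subtype.ext (mul_inv_cancel₀ h4))

theorem step [CharP K p] [hp : Fact p.Prime] (g₀ : J → ℤ) (n : ℕ) : ∀ g : J → ℤ, g₀ ≤ g →
    ∑ j, (g₀ j + N - g j).toNat = n → G h g ≤ G' h g₀ ⊔ mI h • G h g₀ := by
  induction n using Nat.strong_induction_on with
  | _ n ih =>
    intro g hg hn
    by_cases hbig : ∃ j, g₀ j + N ≤ g j
    · obtain ⟨j, hj⟩ := hbig
      intro a ha
      refine Submodule.mem_sup_right ?_
      have h1 : (x j)⁻¹ * a ∈ G h g₀ := by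
        refine ⟨U.mul_mem (h.xiU j) ha.1, fun i => ?_⟩
        by_cases ha0 : a = 0
        · exact Or.inl (by rw [ha0, mul_zero])
        have h2 := (ZV.ge_iff ha0).1 (ha.2 i)
        refine Or.inr ?_
        rw [ZV.mul _ _ _ (inv_ne_zero (h.x0 j)) ha0, ZV.inv _ (h.x0 j)]
        dsimp only at h2
        show g₀ (jj i) ≤ _
        by_cases hi : jj i = j
        · rw [h.wx i j hi, hi]
          rw [hi] at h2
          linarith
        · rw [h.wx' i j hi]
          have := hg (jj i)
          linarith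
      have h2 := h.smul_mM (h.ofU _ (h.xU j) (fun i => Or.inr (by
        by_cases hi : jj i = j
        · rw [h.wx i j hi]; positivity
        · rw [h.wx' i j hi]))) (h.xV j) h1
      rwa [mul_inv_cancel_left₀ (h.x0 j)] at h2
    · push Not at hbig
      rcases h.dichotomy g with h1 | ⟨χ, hχ, hχ0, hχi, hχw⟩
      · refine h1.trans (Ug_le h ?_ ?_)
        · intro y hy b hb
          exact Submodule.mem_sup_right (h.smul_mM (h.yS y hy) (h.yV y hy) (h.G_mono hg hb))
        · intro j
          have hle : g₀ ≤ g + Pi.single j 1 := hg.trans (by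
            rw [le_add_iff_nonneg_right]; exact Pi.single_nonneg.2 zero_le_one)
          refine ih (∑ i, (g₀ i + N - (g + Pi.single j 1 : J → ℤ) i).toNat) ?_ _ hle rfl
          rw [← hn]
          refine Finset.sum_lt_sum (fun i _ => ?_) ⟨j, Finset.mem_univ _, ?_⟩
          · refine Int.toNat_le_toNat ?_
            have : (0 : ℤ) ≤ (Pi.single j (1 : ℤ) : J → ℤ) i := by
              by_cases hi : i = j
              · subst hi; simp
              · rw [Pi.single_eq_of_ne hi]
            rw [Pi.add_apply]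
            linarith
          · have := hbig j
            rw [Pi.add_apply, Pi.single_eq_same]
            omega
      · intro a ha
        refine Submodule.mem_sup_left ?_
        have h1 : a / χ ∈ S := by
          refine h.ofU _ ?_ fun i => ?_
          · rw [div_eq_mul_inv]; exact U.mul_mem ha.1 hχi
          · by_cases ha0 : a = 0
            · exact Or.inl (by rw [ha0, zero_div])
            refine Or.inr ?_
            rw [div_eq_mul_inv, ZV.mul _ _ _ ha0 (inv_ne_zero hχ0), ZV.inv _ hχ0, hχw]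
            have := (ZV.ge_iff ha0).1 (ha.2 i)
            linarith
        have h2 : χ ∈ G' h g₀ := Submodule.subset_span ⟨h.G_mono hg hχ, hχ0, hχi⟩
        have h3 := (G' h g₀).smul_mem (⟨a / χ, h1⟩ : S) h2
        rw [Subalgebra.smul_def, smul_eq_mul] at h3
        rwa [div_mul_cancel₀ _ hχ0] at h3

/-- Every divisorial module is generated by monomials. -/
theorem G_le_G' [CharP K p] [hp : Fact p.Prime] (g : J → ℤ) : G h g ≤ G' h g :=
  Submodule.le_of_le_smul_of_le_jacobson_bot (h.G_fg g) h.mI_le (h.step g _ g le_rfl rfl)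

include h in
/-- **(T1)** the maximal ideal is generated by `Y` and monomials. -/
theorem gen [CharP K p] [hp : Fact p.Prime] {a : K} (ha : a ∈ S) (hV : V.valuation a < 1) :
    a ∈ Submodule.span S (Y ∪ {χ | χ ∈ S ∧ χ ≠ 0 ∧ χ⁻¹ ∈ U ∧ V.valuation χ < 1}) := by
  refine (Ug_le h (M := Submodule.span S (Y ∪ {χ | χ ∈ S ∧ χ ≠ 0 ∧ χ⁻¹ ∈ U ∧ V.valuation χ < 1}))
    ?_ ?_) (h.mem_Ug_zero ha hV)
  · intro y hy b hb
    have h1 := (Submodule.span S (Y ∪ {χ | χ ∈ S ∧ χ ≠ 0 ∧ χ⁻¹ ∈ U ∧ V.valuation χ < 1})).smul_mem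
      (⟨b, (h.G_zero).1 hb⟩ : S) (Submodule.subset_span (Or.inl hy))
    rw [Subalgebra.smul_def, smul_eq_mul] at h1
    rw [mul_comm]
    exact h1
  · intro j
    refine (h.G_le_G' _).trans (Submodule.span_le.2 ?_)
    rintro χ ⟨hχ, hχ0, hχi⟩
    have h1 := h.Ug_zero (G_le_Ug h 0 j hχ)
    exact Submodule.subset_span (Or.inr ⟨h1.1, hχ0, hχi, h1.2⟩)

end TAD

end Pool.Agent.TGh19
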