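import Pool.Agent.Lib.TG_h19.AT3

/-!
# Block TAME: units outside the boundary
-/

set_option autoImplicit false

open Finset

namespace Pool.Agent.TGh19

universe u

variable {k K : Type u} [Field k] [Field K] [Algebra k K] {J ι : Type} [Fintype J] [DecidableEq J]
  {p : ℕ} {V : ValuationSubring K} {S U : Subalgebra k K} {x : J → K} {Y : Set K}
  {N : ℕ} {jj : ι → J} {w : ι → ZV K}

namespace TAD

variable (h : TAD p V S U x Y N jj w)

include h

theorem unit_dvd [CharP K p] [hp : Fact p.Prime] {f : K} (hf0 : f ≠ 0) (hf : f ∈ U)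
    (hfi : f⁻¹ ∈ U) {r r' : ι} (hr : jj r = jj r') (l : ℕ) :
    ((p ^ l : ℕ) : ℤ) ∣ (w r).o f - (w r').o f := by
  by_contra hcon
  set D : ι → ℤ := fun i => (w i).o f with hD
  have hfT : f ∈ T S U w h.toU D := ⟨hf, fun i => Or.inr le_rfl⟩
  have hdec := h.dec_pow l D f hfT
  have hdiv : ∀ z ∈ T S U w h.toU D, z / f ∈ S := by
    intro z hz
    refine h.ofU _ ?_ fun i => ?_
    · rw [div_eq_mul_inv]; exact U.mul_mem hz.1 hfi
    · have h1 := (hz.2 i).mul (Or.inr (ZV.inv (w i) hf0).ge : (w i).ge (-(w i).o f) f⁻¹)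
      rw [← div_eq_mul_inv] at h1
      exact h1.mono (by simp [hD])
  have key : ∀ z ∈ AddSubgroup.closure (TA S U w h.toU x (p ^ l) D ∪ TB S U w h.toU Y D),
      V.valuation (z / f) < 1 := by
    intro z hz
    induction hz using AddSubgroup.closure_induction with
    | zero => simp
    | add u v _ _ hu hv =>
      rw [add_div]
      exact (V.valuation.map_add _ _).trans_lt (max_lt hu hv)
    | neg u _ hu => rwa [neg_div, Valuation.map_neg]
    | mem z hz =>
      rcases hz with ⟨hzT, i, hi, c, hc, rfl⟩ | ⟨y, hy, b', hb', rfl⟩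
      · by_contra hlt
        have h1 : V.valuation (mz x (fun j => (i j : ℤ)) * c ^ p ^ l / f) = 1 :=
          le_antisymm ((V.valuation_le_one_iff _).2 (h.le _ (hdiv _ hzT))) (not_lt.1 hlt)
        have hc0 : c ≠ 0 := by
          rintro rfl
          rw [zero_pow (pow_pos hp.out.pos _).ne', mul_zero, zero_div, map_zero] at h1
          exact zero_ne_one h1
        have h2 : ∀ s, (N : ℤ) * i (jj s) + (p ^ l : ℕ) * (w s).o c = (w s).o f := by
          intro s
          have h3 := h.unit_val (hdiv _ hzT) h1 s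
          rw [div_eq_mul_inv, ZV.mul _ _ _ (mul_ne_zero (mz_ne h.x0 _) (pow_ne_zero _ hc0))
            (inv_ne_zero hf0), ZV.inv _ hf0, ZV.mul _ _ _ (mz_ne h.x0 _) (pow_ne_zero _ hc0),
            ZV.pow _ hc0, h.wmz] at h3
          linarith
        refine hcon ⟨(w r).o c - (w r').o c, ?_⟩
        rw [← h2 r, ← h2 r', hr]
        ring
      · rw [mul_div_assoc, mul_comm]
        exact val_mul_lt V ((V.valuation_le_one_iff _).2 (h.le _ (hdiv _ hb'))) (h.yV y hy)
  have h1 := key f hdec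
  rw [div_self hf0, map_one] at h1
  exact lt_irrefl _ h1

theorem unit_eq [CharP K p] [hp : Fact p.Prime] {f : K} (hf0 : f ≠ 0) (hf : f ∈ U)
    (hfi : f⁻¹ ∈ U) {r r' : ι} (hr : jj r = jj r') : (w r).o f = (w r').o f := by
  have h1 := h.unit_dvd hf0 hf hfi hr (|(w r).o f - (w r').o f|).toNat
  have h2 : |(w r).o f - (w r').o f| < ((p ^ (|(w r).o f - (w r').o f|).toNat : ℕ) : ℤ) := by
    have h3 : (|(w r).o f - (w r').o f|).toNat < p ^ (|(w r).o f - (w r').o f|).toNat :=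
      Nat.lt_pow_self hp.out.one_lt
    have h4 : ((|(w r).o f - (w r').o f|).toNat : ℤ) <
        ((p ^ (|(w r).o f - (w r').o f|).toNat : ℕ) : ℤ) := by exact_mod_cast h3
    rwa [Int.toNat_of_nonneg (abs_nonneg _)] at h4
  have h3 := Int.eq_zero_of_abs_lt_dvd h1 h2
  linarith

/-- **(T2)** a unit outside the boundary has an `N`-th power which is a monomial in `x` times a
unit of `S`. -/
theorem unit_pow [CharP K p] [hp : Fact p.Prime] {f : K} (hf0 : f ≠ 0) (hf : f ∈ U)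
    (hfi : f⁻¹ ∈ U) : ∃ a : J → ℤ, (∀ i, (w i).o f = a (jj i)) ∧
      f ^ N / mz x a ∈ S ∧ mz x a / f ^ N ∈ S := by
  choose s hs using h.surj
  have hw : ∀ i, (w i).o f = (w (s (jj i))).o f := fun i => h.unit_eq hf0 hf hfi (hs _).symm
  refine ⟨fun j => (w (s j)).o f, hw, h.ofU _ ?_ fun i => Or.inr ?_, h.ofU _ ?_ fun i => Or.inr ?_⟩
  · rw [div_eq_mul_inv, ← mz_neg]
    exact U.mul_mem (U.pow_mem hf _) (h.mz_mem _)
  · rw [div_eq_mul_inv, ZV.mul _ _ _ (pow_ne_zero _ hf0) (inv_ne_zero (mz_ne h.x0 _)),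
      ZV.inv _ (mz_ne h.x0 _), ZV.pow _ hf0, h.wmz, ← hw i]
    simp
  · rw [div_eq_mul_inv, ← inv_pow]
    exact U.mul_mem (h.mz_mem _) (U.pow_mem hfi _)
  · rw [div_eq_mul_inv, ZV.mul _ _ _ (mz_ne h.x0 _) (inv_ne_zero (pow_ne_zero _ hf0)),
      ZV.inv _ (pow_ne_zero _ hf0), ZV.pow _ hf0, h.wmz, ← hw i]
    simp

/-- **(T1)** with a finite set of monomials. -/
theorem gen_fin [CharP K p] [hp : Fact p.Prime] : ∃ M : Finset K,
    (∀ χ ∈ M, χ ∈ S ∧ χ ≠ 0 ∧ χ⁻¹ ∈ U ∧ V.valuation χ < 1) ∧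
    ∀ a ∈ S, V.valuation a < 1 → a ∈ Submodule.span S (Y ∪ (M : Set K)) := by
  classical
  have := h.noeth
  have hfg : (Submodule.span S {χ | χ ∈ S ∧ χ ≠ 0 ∧ χ⁻¹ ∈ U ∧ V.valuation χ < 1}).FG := by
    refine Submodule.FG.of_le (h.G_fg 0) (Submodule.span_le.2 ?_)
    rintro χ ⟨hχ, -⟩
    exact (h.G_zero).2 hχ
  obtain ⟨M, hM, hspan⟩ := (Submodule.fg_span_iff_fg_span_finset_subset _).1 hfg
  refine ⟨M, fun χ hχ => hM hχ, fun a ha hV => ?_⟩
  rw [Submodule.span_union, ← hspan, ← Submodule.span_union]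
  exact h.gen ha hV

end TAD

end Pool.Agent.TGh19
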