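import Pool.Agent.Lib.TG_h19.AT

/-!
# Derivations and discrete valuations

`O₀ ⊆ O = {0 ≤ w}` rings of a field, every element of `O` is modulo `m` a simple root of a
polynomial over `O₀`.  A bounded derivation which preserves `O₀` preserves `O`; first version: a
uniformizer lies in the base (unramified); second version: logarithmic derivations, ramification
index a unit (tame).
-/

set_option autoImplicit false

open Finset Polynomial

namespace Pool.Agent.TGh19

universe u

namespace ZV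

variable {L : Type u} [Field L] {w : ZV L}

theorem ge.sum {ι : Type*} {s : Finset ι} {f : ι → L} {m : ℤ} (h : ∀ i ∈ s, w.ge m (f i)) :
    w.ge m (∑ i ∈ s, f i) := by
  classical
  induction s using Finset.induction_on with
  | empty => simpa using ge_zero
  | insert i s hi ih =>
    rw [Finset.sum_insert hi]
    exact (h i (by simp)).add (ih fun j hj => h j (by simp [hj]))

theorem ge.sub {m : ℤ} {a b : L} (ha : w.ge m a) (hb : w.ge m b) : w.ge m (a - b) := by
  rw [sub_eq_add_neg]; exact ha.add hb.neg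

theorem ge.pow {a : L} (ha : w.ge 0 a) (n : ℕ) : w.ge 0 (a ^ n) := by
  induction n with
  | zero => rw [pow_zero]; exact ge_one
  | succ n ih => rw [pow_succ]; exact (ih.mul ha).mono (by omega)

theorem ge_nat (n : ℕ) : w.ge 0 (n : L) := by
  induction n with
  | zero => rw [Nat.cast_zero]; exact ge_zero
  | succ n ih => rw [Nat.cast_succ]; exact ih.add ge_one

theorem ge.cancel {m : ℤ} {a b : L} (h : w.ge m (a * b)) (ha : a ≠ 0) (ho : w.o a = 0) :
    w.ge m b := by
  have h1 : w.ge 0 a⁻¹ := Or.inr (by rw [w.inv ha, ho]; simp)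
  have h2 := (h1.mul h).mono (show m ≤ 0 + m by omega)
  rwa [inv_mul_cancel_left₀ ha] at h2

end ZV

/-- Every element of `{0 ≤ w}` is, modulo positive values, a simple root of a polynomial
over `O₀`. -/
def SepRes {L : Type u} [Field L] (w : ZV L) (O₀ : Set L) : Prop :=
  ∀ a : L, w.ge 0 a → ∃ G : L[X], (∀ i, G.coeff i ∈ O₀) ∧ w.ge 1 (G.eval a) ∧
    (derivative G).eval a ≠ 0 ∧ w.o ((derivative G).eval a) = 0

section

variable {L : Type u} [Field L] {w : ZV L}

/-- `D (G(a)) - G'(a) D(a)` is integral. -/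
theorem der_eval_sub {D : Derivation ℤ L L} {O₀ : Set L}
    (hD : ∀ a ∈ O₀, w.ge 0 (D a)) {a : L} (ha : w.ge 0 a) {G : L[X]} (hG : ∀ i, G.coeff i ∈ O₀) :
    w.ge 0 (D (G.eval a) - (derivative G).eval a * D a) := by
  have e : D (G.eval a) - (derivative G).eval a * D a =
      ∑ i ∈ range (G.natDegree + 1), D (G.coeff i) * a ^ i := by
    rw [derivative_eval, Polynomial.sum_over_range _ (by simp), Polynomial.eval_eq_sum_range,
      map_sum, Finset.sum_mul, ← Finset.sum_sub_distrib]
    refine Finset.sum_congr rfl fun i _ => ?_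
    rw [D.leibniz, D.leibniz_pow]
    simp only [smul_eq_mul, nsmul_eq_mul]
    ring
  rw [e]
  exact ZV.ge.sum fun i _ => ((hD _ (hG i)).mul (ha.pow i)).mono (by omega)

/-- **Unramified extensions**: a bounded derivation preserving the base preserves `{0 ≤ w}`. -/
theorem der_unram {D : Derivation ℤ L L} {O₀ : Set L}
    (hD : ∀ a ∈ O₀, w.ge 0 (D a)) (hsep : SepRes w O₀) {π : L} (hπ : π ≠ 0) (hπ1 : w.o π = 1)
    (hπD : w.ge 0 (D π)) (hb : ∃ c : ℤ, ∀ a, w.ge 0 a → w.ge c (D a)) :
    ∀ a, w.ge 0 a → w.ge 0 (D a) := by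
  have step : ∀ c : ℤ, c < 0 → (∀ a, w.ge 0 a → w.ge c (D a)) → ∀ a, w.ge 0 a →
      w.ge (c + 1) (D a) := by
    intro c hc h a ha
    obtain ⟨G, hG, hG1, hG', hGo⟩ := hsep a ha
    have h1 : w.ge (c + 1) (D (G.eval a)) := by
      have hb : w.ge 0 (π⁻¹ * G.eval a) := by
        have : w.ge (-1) π⁻¹ := Or.inr (by rw [w.inv hπ, hπ1])
        exact (this.mul hG1).mono (by omega)
      have e : G.eval a = π * (π⁻¹ * G.eval a) := by rw [mul_inv_cancel_left₀ hπ]
      rw [e, D.leibniz, smul_eq_mul, smul_eq_mul]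
      have h2 : w.ge 1 π := Or.inr hπ1.ge
      exact ((h2.mul (h _ hb)).mono (by omega)).add ((hb.mul hπD).mono (by omega))
    have h2 := der_eval_sub hD ha hG
    have h3 := h1.sub (h2.mono (show c + 1 ≤ 0 by omega))
    rw [sub_sub_cancel] at h3
    exact h3.cancel hG' hGo
  obtain ⟨c, hc⟩ := hb
  have key : ∀ n : ℕ, ∀ c : ℤ, c + n = 0 → (∀ a, w.ge 0 a → w.ge c (D a)) →
      ∀ a, w.ge 0 a → w.ge 0 (D a) := by
    intro n
    induction n with
    | zero => intro c hc h a ha; exact (h a ha).mono (by push_cast at hc; omega)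
    | succ n ih =>
      intro c hc h
      exact ih (c + 1) (by push_cast at hc; omega) (step c (by push_cast at hc; omega) h)
  rcases le_or_gt 0 c with h | h
  · exact fun a ha => (hc a ha).mono h
  · exact key (-c).toNat c (by omega) hc

/-- **Tame extensions**, logarithmic form: `c ≤ w (D a / a)` for all `a`. `Π ^ e = u π`. -/
theorem der_tame {D : Derivation ℤ L L} {O₀ : Set L}
    (hD : ∀ a ∈ O₀, w.ge 0 (D a)) (hsep : SepRes w O₀) {π : L} (hπ : π ≠ 0) {e : ℕ}
    (he0 : (e : L) ≠ 0) (heo : w.o (e : L) = 0) (hπe : w.o π = e)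
    (hπD : w.ge 0 (D π / π)) (hb : ∃ c : ℤ, ∀ a, a ≠ 0 → w.ge c (D a / a)) :
    ∀ a, a ≠ 0 → w.ge 0 (D a / a) := by
  have dlog_mul : ∀ a b : L, a ≠ 0 → b ≠ 0 → D (a * b) / (a * b) = D a / a + D b / b := by
    intro a b ha hb
    rw [D.leibniz, smul_eq_mul, smul_eq_mul]
    field_simp
    ring
  have dlog_pow : ∀ (a : L) (n : ℕ), a ≠ 0 → D (a ^ n) / a ^ n = n * (D a / a) := by
    intro a n ha
    induction n with
    | zero => simp
    | succ n ih => rw [pow_succ, dlog_mul _ _ (pow_ne_zero _ ha) ha, ih]; push_cast; ring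
  have dlog_inv : ∀ a : L, a ≠ 0 → D (a⁻¹) / a⁻¹ = - (D a / a) := by
    intro a ha
    have h := dlog_mul a a⁻¹ ha (inv_ne_zero ha)
    rw [mul_inv_cancel₀ ha, Derivation.map_one_eq_zero, zero_div] at h
    linear_combination -h
  have step : ∀ c : ℤ, c < 0 → (∀ a, a ≠ 0 → w.ge c (D a / a)) → ∀ a, a ≠ 0 →
      w.ge (c + 1) (D a / a) := by
    intro c hc h
    -- units
    have hu : ∀ u : L, u ≠ 0 → w.o u = 0 → w.ge (c + 1) (D u / u) := by
      intro a ha hao
      obtain ⟨G, hG, hG1, hG', hGo⟩ := hsep a (Or.inr hao.ge)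
      have h1 : w.ge (c + 1) (D (G.eval a)) := by
        by_cases hz : G.eval a = 0
        · rw [hz, map_zero]; exact ZV.ge_zero
        · have := (hG1.mul (h _ hz))
          rw [mul_div_cancel₀ _ hz] at this
          exact this.mono (by omega)
      have h2 := der_eval_sub hD (Or.inr hao.ge) hG
      have h3 := h1.sub (h2.mono (show c + 1 ≤ 0 by omega))
      rw [sub_sub_cancel] at h3
      have h4 := h3.cancel hG' hGo
      have h5 : w.ge 0 a⁻¹ := Or.inr (by rw [w.inv ha, hao]; simp)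
      rw [div_eq_mul_inv]
      exact (h4.mul h5).mono (by omega)
    intro a ha
    -- `a ^ e = u π ^ (o a)`
    have hea : a ^ e ≠ 0 := pow_ne_zero _ ha
    have hpz : π ^ (w.o a) ≠ 0 := zpow_ne_zero _ hπ
    have huo : w.o (a ^ e * (π ^ (w.o a))⁻¹) = 0 := by
      rw [w.mul _ _ hea (inv_ne_zero hpz), w.inv hpz, w.pow ha, w.zpow hπ, hπe]
      ring
    have h1 := hu _ (mul_ne_zero hea (inv_ne_zero hpz)) huo
    rw [dlog_mul _ _ hea (inv_ne_zero hpz), dlog_pow _ _ ha, dlog_inv _ hpz] at h1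
    have h2 : w.ge 0 (D (π ^ (w.o a)) / π ^ (w.o a)) := by
      obtain ⟨m, hm | hm⟩ := (w.o a).eq_nat_or_neg
      · rw [hm, zpow_natCast, dlog_pow _ _ hπ]
        exact ((ZV.ge_nat m).mul hπD).mono (by omega)
      · rw [hm, zpow_neg, zpow_natCast, dlog_inv _ (pow_ne_zero _ hπ), dlog_pow _ _ hπ]
        exact (((ZV.ge_nat m).mul hπD).mono (by omega)).neg
    have h3 := h1.add (h2.mono (show c + 1 ≤ 0 by omega))
    rw [neg_add_cancel_right] at h3
    exact h3.cancel he0 heo
  obtain ⟨c, hc⟩ := hb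
  have key : ∀ n : ℕ, ∀ c : ℤ, c + n = 0 → (∀ a, a ≠ 0 → w.ge c (D a / a)) →
      ∀ a, a ≠ 0 → w.ge 0 (D a / a) := by
    intro n
    induction n with
    | zero => intro c hc h a ha; exact (h a ha).mono (by push_cast at hc; omega)
    | succ n ih =>
      intro c hc h
      exact ih (c + 1) (by push_cast at hc; omega) (step c (by push_cast at hc; omega) h)
  rcases le_or_gt 0 c with h | h
  · exact fun a ha => (hc a ha).mono h
  · exact key (-c).toNat c (by omega) hc

end

end Pool.Agent.TGh19
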